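import Pool.Agent.helper14.Kus3.Defs

/-!
# Kusner, field part F4: the test field is smooth, compactly supported and divergence free
-/

open Set Metric MeasureTheory
open scoped ContDiff Topology

namespace Kusner.P.TF

theorem contDiff_coord (i : Fin 3) : ContDiff ℝ ∞ (fun x : E3 => x i) := by
  exact contDiff_euclidean.1 contDiff_id i

theorem om_contDiff : ContDiff ℝ ∞ om := by
  unfold om
  refine ContDiff.div contDiff_const ?_ ?_
  · exact contDiff_const.add (contDiff_norm_sq ℝ)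
  · intro x
    positivity

theorem et_contDiff : ContDiff ℝ ∞ et := by
  unfold et
  exact (contDiff_coord 2).mul om_contDiff

theorem gfun_contDiff : ContDiff ℝ ∞ gfun := by
  unfold gfun
  exact (om_contDiff.pow 2).mul (contDiff_const.sub (et_contDiff.pow 4))

theorem cg_contDiff {χ : E3 → ℝ} (hχ : ContDiff ℝ ∞ χ) : ContDiff ℝ ∞ (cg χ) := by
  unfold cg
  exact hχ.mul gfun_contDiff

theorem fderiv_cg_contDiff {χ : E3 → ℝ} (hχ : ContDiff ℝ ∞ χ) (v : E3) :
    ContDiff ℝ ∞ (fun x => fderiv ℝ (cg χ) x v) := by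
  have h : ContDiff ℝ ∞ (fderiv ℝ (cg χ)) := (cg_contDiff hχ).fderiv_right (by simp)
  exact h.clm_apply contDiff_const

end Kusner.P.TF

namespace Kusner.P

open TF

theorem fieldX_contDiff {χ : E3 → ℝ} (hχ : ContDiff ℝ ∞ χ) : ContDiff ℝ ∞ (fieldX χ) := by
  have hc := cg_contDiff hχ
  rw [contDiff_euclidean]
  intro i
  fin_cases i
  · exact ((contDiff_coord 0).mul (fderiv_cg_contDiff hχ _)).neg
  · exact ((contDiff_coord 1).mul (fderiv_cg_contDiff hχ _)).neg
  · exact ((contDiff_const.mul hc).add ((contDiff_coord 0).mul (fderiv_cg_contDiff hχ _))).add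
      ((contDiff_coord 1).mul (fderiv_cg_contDiff hχ _))

theorem fieldX_compact {χ : E3 → ℝ} (_hχ : ContDiff ℝ ∞ χ) (hc : HasCompactSupport χ) :
    HasCompactSupport (fieldX χ) := by
  have hcg : HasCompactSupport (cg χ) := hc.mul_right
  have hd : HasCompactSupport (fderiv ℝ (cg χ)) := hcg.fderiv ℝ
  refine HasCompactSupport.intro (K := tsupport (cg χ)) hcg ?_
  intro x hx
  have h0 : cg χ x = 0 := image_eq_zero_of_notMem_tsupport hx
  have h1 : fderiv ℝ (cg χ) x = 0 := by
    by_contra hne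
    exact hx (support_fderiv_subset ℝ hne)
  unfold fieldX
  rw [h0, h1]
  ext i
  fin_cases i <;> simp

theorem TF.hasFDerivAt_coord (i : Fin 3) (x : E3) :
    HasFDerivAt (fun x : E3 => x i) (EuclideanSpace.proj i : E3 →L[ℝ] ℝ) x :=
  (EuclideanSpace.proj i : E3 →L[ℝ] ℝ).hasFDerivAt

theorem TF.trace_eq_sum (A : E3 →L[ℝ] E3) :
    LinearMap.trace ℝ E3 A.toLinearMap =
      A (EuclideanSpace.single 0 1) 0 + A (EuclideanSpace.single 1 1) 1 +
        A (EuclideanSpace.single 2 1) 2 := by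
  rw [LinearMap.trace_eq_sum_inner _ (EuclideanSpace.basisFun (Fin 3) ℝ)]
  rw [Fin.sum_univ_three]
  simp [EuclideanSpace.basisFun_apply, EuclideanSpace.inner_single_left]

theorem fieldX_div {χ : E3 → ℝ} (hχ : ContDiff ℝ ∞ χ) (x : E3) :
    LinearMap.trace ℝ E3 (fderiv ℝ (fieldX χ) x).toLinearMap = 0 := by
  have hc := cg_contDiff hχ
  have hdc : Differentiable ℝ (cg χ) := hc.differentiable (by simp)
  have hdd : ∀ v : E3, Differentiable ℝ (fun x => fderiv ℝ (cg χ) x v) := fun v =>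
    (fderiv_cg_contDiff hχ v).differentiable (by simp)
  have hX : DifferentiableAt ℝ (fieldX χ) x :=
    ((fieldX_contDiff hχ).differentiable (by simp)) x
  have hF2 : DifferentiableAt ℝ (fderiv ℝ (cg χ)) x :=
    ((hc.fderiv_right (m := ∞) (by simp)).differentiable (by simp)) x
  -- the second derivatives
  have hsnd : ∀ v w : E3, fderiv ℝ (fun y => fderiv ℝ (cg χ) y v) x w =
      fderiv ℝ (fderiv ℝ (cg χ)) x w v := by
    intro v w
    rw [fderiv_clm_apply hF2 (differentiableAt_const v)]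
    simp
  have hsymm : ∀ v w : E3, fderiv ℝ (fderiv ℝ (cg χ)) x w v = fderiv ℝ (fderiv ℝ (cg χ)) x v w := by
    intro v w
    have : IsSymmSndFDerivAt ℝ (cg χ) x :=
      hc.contDiffAt.isSymmSndFDerivAt (by
        simp only [minSmoothness_of_isRCLikeNormedField]
        exact WithTop.coe_le_coe.2 (le_top : (2 : ℕ∞) ≤ ⊤))
    exact this w v
  -- components
  have hcomp : ∀ (i : Fin 3) (w : E3), (fderiv ℝ (fieldX χ) x w) i =
      fderiv ℝ (fun y => fieldX χ y i) x w := by
    intro i w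
    have h := ((EuclideanSpace.proj i : E3 →L[ℝ] ℝ).hasFDerivAt.comp x hX.hasFDerivAt)
    have h2 : HasFDerivAt (fun y => fieldX χ y i)
        ((EuclideanSpace.proj i : E3 →L[ℝ] ℝ).comp (fderiv ℝ (fieldX χ) x)) x := h
    rw [h2.fderiv]
    rfl
  rw [trace_eq_sum, hcomp, hcomp, hcomp]
  have h0 : fderiv ℝ (fun y => fieldX χ y 0) x (EuclideanSpace.single 0 1) =
      -(fderiv ℝ (cg χ) x (EuclideanSpace.single 2 1) +
        x 0 * fderiv ℝ (fderiv ℝ (cg χ)) x (EuclideanSpace.single 0 1)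
          (EuclideanSpace.single 2 1)) := by
    have h : HasFDerivAt (fun y : E3 => -(y 0 * fderiv ℝ (cg χ) y (EuclideanSpace.single 2 1)))
        (-(x 0 • fderiv ℝ (fun y => fderiv ℝ (cg χ) y (EuclideanSpace.single 2 1)) x +
          fderiv ℝ (cg χ) x (EuclideanSpace.single 2 1) • (EuclideanSpace.proj 0 : E3 →L[ℝ] ℝ))) x :=
      ((hasFDerivAt_coord 0 x).mul (hdd _ x).hasFDerivAt).neg
    have h' : (fun y => fieldX χ y 0) =
        (fun y : E3 => -(y 0 * fderiv ℝ (cg χ) y (EuclideanSpace.single 2 1))) := rfl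
    rw [h', h.fderiv]
    simp [hsnd]
    ring
  have h1 : fderiv ℝ (fun y => fieldX χ y 1) x (EuclideanSpace.single 1 1) =
      -(fderiv ℝ (cg χ) x (EuclideanSpace.single 2 1) +
        x 1 * fderiv ℝ (fderiv ℝ (cg χ)) x (EuclideanSpace.single 1 1)
          (EuclideanSpace.single 2 1)) := by
    have h : HasFDerivAt (fun y : E3 => -(y 1 * fderiv ℝ (cg χ) y (EuclideanSpace.single 2 1)))
        (-(x 1 • fderiv ℝ (fun y => fderiv ℝ (cg χ) y (EuclideanSpace.single 2 1)) x +
          fderiv ℝ (cg χ) x (EuclideanSpace.single 2 1) • (EuclideanSpace.proj 1 : E3 →L[ℝ] ℝ))) x :=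
      ((hasFDerivAt_coord 1 x).mul (hdd _ x).hasFDerivAt).neg
    have h' : (fun y => fieldX χ y 1) =
        (fun y : E3 => -(y 1 * fderiv ℝ (cg χ) y (EuclideanSpace.single 2 1))) := rfl
    rw [h', h.fderiv]
    simp [hsnd]
    ring
  have h2 : fderiv ℝ (fun y => fieldX χ y 2) x (EuclideanSpace.single 2 1) =
      2 * fderiv ℝ (cg χ) x (EuclideanSpace.single 2 1) +
        x 0 * fderiv ℝ (fderiv ℝ (cg χ)) x (EuclideanSpace.single 2 1)
          (EuclideanSpace.single 0 1) +
        x 1 * fderiv ℝ (fderiv ℝ (cg χ)) x (EuclideanSpace.single 2 1)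
          (EuclideanSpace.single 1 1) := by
    have h : HasFDerivAt (fun y : E3 => 2 * cg χ y +
          y 0 * fderiv ℝ (cg χ) y (EuclideanSpace.single 0 1) +
          y 1 * fderiv ℝ (cg χ) y (EuclideanSpace.single 1 1))
        ((2 : ℝ) • fderiv ℝ (cg χ) x +
          (x 0 • fderiv ℝ (fun y => fderiv ℝ (cg χ) y (EuclideanSpace.single 0 1)) x +
            fderiv ℝ (cg χ) x (EuclideanSpace.single 0 1) •
              (EuclideanSpace.proj 0 : E3 →L[ℝ] ℝ)) +
          (x 1 • fderiv ℝ (fun y => fderiv ℝ (cg χ) y (EuclideanSpace.single 1 1)) x +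
            fderiv ℝ (cg χ) x (EuclideanSpace.single 1 1) •
              (EuclideanSpace.proj 1 : E3 →L[ℝ] ℝ))) x :=
      (((hdc x).hasFDerivAt.const_mul 2).add
        ((hasFDerivAt_coord 0 x).mul (hdd _ x).hasFDerivAt)).add
        ((hasFDerivAt_coord 1 x).mul (hdd _ x).hasFDerivAt)
    have h' : (fun y => fieldX χ y 2) =
        (fun y : E3 => 2 * cg χ y +
          y 0 * fderiv ℝ (cg χ) y (EuclideanSpace.single 0 1) +
          y 1 * fderiv ℝ (cg χ) y (EuclideanSpace.single 1 1)) := rfl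
    rw [h', h.fderiv]
    simp [hsnd]
  rw [h0, h1, h2, hsymm (EuclideanSpace.single 0 1) (EuclideanSpace.single 2 1),
    hsymm (EuclideanSpace.single 1 1) (EuclideanSpace.single 2 1)]
  ring

end Kusner.P
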