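import Pool.Agent.helper14.Kus3.Defs
import Pool.Agent.helper35.Kus3.F4
import Pool.Agent.helper14.Kus3.Field
import Pool.Agent.helper14.Kus3.F3

/-!
# Kusner, field part F9: assembly
-/

open Set Metric MeasureTheory
open scoped ContDiff Topology

namespace Kusner.P.Asm

theorem second_zero : Second (fun _ => (0 : ℝ)) 0 :=
  ⟨fun _ => 0, fun t => hasDerivAt_const t 0, hasDerivAt_const 0 0⟩

theorem second_sum {ι : Type*} (s : Finset ι) {A : ι → ℝ → ℝ} {a : ι → ℝ}
    (h : ∀ i ∈ s, Second (A i) (a i)) :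
    Second (fun t => ∑ i ∈ s, A i t) (∑ i ∈ s, a i) := by
  classical
  choose! A' hA' using h
  refine ⟨fun t => ∑ i ∈ s, A' i t, fun t => ?_, ?_⟩
  · exact HasDerivAt.fun_sum fun i hi => (hA' i hi).1 t
  · exact HasDerivAt.fun_sum fun i hi => (hA' i hi).2

theorem continuous_vec : Continuous vec := by
  have : ContDiff ℝ 0 vec := by
    rw [contDiff_euclidean]
    intro i
    fin_cases i
    · exact contDiff_euclidean.1 contDiff_id (1 : Fin 4)
    · exact contDiff_euclidean.1 contDiff_id (2 : Fin 4)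
    · exact contDiff_euclidean.1 contDiff_id (3 : Fin 4)
  exact this.continuous

theorem continuous_zero : Continuous (fun Y : E4 => Y 0) :=
  (contDiff_euclidean.1 (contDiff_id (𝕜 := ℝ) (n := 0)) (0 : Fin 4)).continuous

theorem inner3 (u v : E3) : inner ℝ u v = u 0 * v 0 + u 1 * v 1 + u 2 * v 2 := by
  rw [PiLp.inner_apply, Fin.sum_univ_three]
  simp only [RCLike.inner_apply, conj_trivial]
  ring

theorem normsq3 (u : E3) : ‖u‖ ^ 2 = u 0 ^ 2 + u 1 ^ 2 + u 2 ^ 2 := by
  rw [EuclideanSpace.norm_sq_eq, Fin.sum_univ_three]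
  simp [sq_abs]

theorem normsq4 (Y : E4) : ‖Y‖ ^ 2 = Y 0 ^ 2 + Y 1 ^ 2 + Y 2 ^ 2 + Y 3 ^ 2 := by
  rw [EuclideanSpace.norm_sq_eq, Fin.sum_univ_four]
  simp [sq_abs]

theorem normsq_vec {Y : E4} (hY : ‖Y‖ = 1) : ‖vec Y‖ ^ 2 = 1 - Y 0 ^ 2 := by
  have h := normsq4 Y
  rw [hY] at h
  rw [normsq3]
  simp only [vec, PiLp.toLp_apply, Matrix.cons_val_zero, Matrix.cons_val_one, Matrix.cons_val]
  linarith

theorem continuous_inner_vec (p : E3) : Continuous (fun Y : E4 => inner ℝ p (vec Y)) :=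
  continuous_const.inner continuous_vec

theorem continuous_nvec (wv : E3) (wt : ℝ) : Continuous (fun Y : E4 => nvec wv wt Y) := by
  unfold nvec
  exact continuous_const.sub (continuous_vec.const_smul wt)

theorem continuous_psi {X : Type*} [TopologicalSpace X] {e m p v : X → ℝ} (he : Continuous e)
    (hm : Continuous m) (hp : Continuous p) (hv : Continuous v) :
    Continuous (fun x => psi (e x) (m x) (p x) (v x)) := by
  unfold psi psi0 psi1 psi2 psi3 psi4 psi5 psi6
  fun_prop

theorem continuous_Phi {X : Type*} [TopologicalSpace X] {e m : X → ℝ} (he : Continuous e)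
    (hm : Continuous m) : Continuous (fun x => Phi (e x) (m x)) := by
  unfold Phi
  fun_prop

/-- The integrand of one film. -/
noncomputable def fi (p : E3) (w0 wt : ℝ) (wv : E3) (Y : E4) : ℝ :=
  psi (Y 0) (w0 - wt * Y 0) (inner ℝ p (vec Y)) (inner ℝ p (nvec wv wt Y))

theorem continuous_fi (p : E3) (w0 wt : ℝ) (wv : E3) : Continuous (fi p w0 wt wv) := by
  unfold fi
  refine continuous_psi continuous_zero ?_ (continuous_inner_vec p) ?_
  · exact continuous_const.sub (continuous_const.mul continuous_zero)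
  · exact continuous_const.inner (continuous_nvec wv wt)

theorem integrableOn_of_continuous {S : Set E4} (hS : IsCompact S) (hfin : μH[2] S < ⊤)
    {f : E4 → ℝ} (hf : Continuous f) : IntegrableOn f S μH[2] := by
  obtain ⟨C, hC⟩ := hS.exists_bound_of_continuousOn hf.continuousOn
  refine Measure.integrableOn_of_bounded (M := C) hfin.ne hf.aestronglyMeasurable ?_
  exact (ae_restrict_iff' hS.measurableSet).2 (Filter.Eventually.of_forall fun Y hY => hC Y hY)

theorem cubature_film {w0 wt : ℝ} {wv : E3} (hw : w0 ^ 2 + ‖wv‖ ^ 2 - wt ^ 2 = 1) {Y : E4}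
    (hY1 : ‖Y‖ = 1) (hY2 : w0 * Y 0 + inner ℝ wv (vec Y) = wt) :
    ∑ i : PIdx, pw i * fi (pole i) w0 wt wv Y = Phi (Y 0) (w0 - wt * Y 0) := by
  unfold fi
  have hv := normsq_vec hY1
  apply cubature
  · exact hv
  · unfold nvec
    rw [norm_sub_sq_real, inner_smul_right, norm_smul, mul_pow, hv, Real.norm_eq_abs, sq_abs]
    have h3 : inner ℝ wv (vec Y) = wt - w0 * Y 0 := by linarith
    rw [h3]
    have h4 : ‖wv‖ ^ 2 = 1 - w0 ^ 2 + wt ^ 2 := by linarith
    rw [h4]
    ring
  · unfold nvec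
    rw [inner_sub_right, inner_smul_right, real_inner_self_eq_norm_sq, hv, real_inner_comm]
    have h3 : inner ℝ wv (vec Y) = wt - w0 * Y 0 := by linarith
    rw [h3]
    ring

theorem st_continuousOn (a b p : E3) {S : Set E4} (hSp : ∀ Y ∈ S, inner ℝ p (vec Y) ≠ 1) :
    ContinuousOn (st a b p) S := by
  unfold st
  refine ContinuousOn.fun_smul ?_ ?_
  · refine continuousOn_const.div (continuousOn_const.sub (continuous_inner_vec p).continuousOn) ?_
    intro Y hY h
    exact hSp Y hY (by linarith)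
  · apply Continuous.continuousOn
    have hc : ∀ i : Fin 3, Continuous fun Y : E4 =>
        (!₂[inner ℝ a (vec Y), inner ℝ b (vec Y), Y 0] : E3) i := by
      intro i
      fin_cases i
      · exact continuous_inner_vec a
      · exact continuous_inner_vec b
      · exact continuous_zero
    exact (PiLp.continuous_toLp 2 _).comp (continuous_pi hc)

/-- The second variation for one pole. -/
theorem second_pole {n k : ℕ} (Ω : Fin k → Set E3) {a b p : E3} (hF : Frame a b p)
    (ho : ∀ j, IsOpen (Ω j)) (hb : ∀ j, Bornology.IsBounded (Ω j))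
    (hne : ∀ j, (Ω j).Nonempty) (hd : Pairwise fun j l => Disjoint (Ω j) (Ω l))
    (w0 wt : Fin n → Fin n → ℝ) (wv : Fin n → Fin n → E3) (S : Fin n → Fin n → Set E4)
    (hS : ∀ j l, IsCompact (S j l)) (hS1 : ∀ j l, ∀ Y ∈ S j l, ‖Y‖ = 1)
    (hS2 : ∀ j l, ∀ Y ∈ S j l, w0 j l * Y 0 + inner ℝ (wv j l) (vec Y) = wt j l)
    (hw : ∀ j l, j < l → (S j l).Nonempty →
      w0 j l ^ 2 + ‖wv j l‖ ^ 2 - wt j l ^ 2 = 1 ∧ wv j l ≠ 0)
    (hSp : ∀ j l, ∀ Y ∈ S j l, inner ℝ p (vec Y) ≠ 1)
    (harea : ∀ φ t, area Ω φ t = ∑ j : Fin n, ∑ l : Fin n,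
      if j < l then (μH[2] (φ t '' (st a b p '' S j l))).toReal else 0) :
    ∃ (φ : ℝ → E3 → E3) (ε : ℝ), 0 < ε ∧ IsDeformation φ ∧ PreservesVolumes Ω φ ∧
      Second (area Ω φ) (ε ^ 2 * ∑ j : Fin n, ∑ l : Fin n,
        if j < l then ∫ Y in S j l, fi p (w0 j l) (wt j l) (wv j l) Y ∂μH[2] else 0) := by
  classical
  -- a ball containing all films
  have hK : ∀ j l, IsCompact (st a b p '' S j l) := fun j l =>
    (hS j l).image_of_continuousOn (st_continuousOn a b p (hSp j l))
  have hKu : IsCompact (⋃ j, ⋃ l, st a b p '' S j l) :=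
    isCompact_iUnion fun j => isCompact_iUnion fun l => hK j l
  obtain ⟨R0, hR0⟩ := hKu.isBounded.subset_ball 0
  set R : ℝ := max R0 1 with hRdef
  have hR : 0 < R := lt_of_lt_of_le one_pos (le_max_right _ _)
  let χ : ContDiffBump (0 : E3) := ⟨R, R + 1, hR, by linarith⟩
  have hχ : ContDiff ℝ ∞ (χ : E3 → ℝ) := χ.contDiff
  have hχc : HasCompactSupport (χ : E3 → ℝ) := χ.hasCompactSupport
  have hone : ∀ x ∈ ball (0 : E3) R, χ x = 1 := fun x hx =>
    χ.one_of_mem_closedBall (ball_subset_closedBall hx)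
  obtain ⟨φ, ε, hε, hφ, hvol, hM, hW⟩ := exists_test_deformation Ω ho hb hne hd
    (fieldX_contDiff hχ) (fieldX_compact hχ hχc) (fieldX_div hχ)
  refine ⟨φ, ε, hε, hφ, hvol, ?_⟩
  have hW' : ∀ x, HasDerivAt (fun t => deriv (fun s => fderiv ℝ (φ s) x) t)
      (ε ^ 2 • fderiv ℝ (accX χ) x) 0 := hW
  have hone1 : ∀ j l, Second
      (fun t => if j < l then (μH[2] (φ t '' (st a b p '' S j l))).toReal else 0)
      (ε ^ 2 * if j < l then ∫ Y in S j l, fi p (w0 j l) (wt j l) (wv j l) Y ∂μH[2] else 0) := by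
    intro j l
    by_cases hjl : j < l
    · simp only [if_pos hjl]
      rcases (S j l).eq_empty_or_nonempty with he | hn
      · rw [he]
        simp only [image_empty, measure_empty, ENNReal.toReal_zero, Measure.restrict_empty,
          integral_zero_measure, mul_zero]
        exact second_zero
      · obtain ⟨hw1, hw2⟩ := hw j l hjl hn
        have hsub : st a b p '' S j l ⊆ ball 0 R := by
          refine Subset.trans ?_ (ball_subset_ball (le_max_left R0 1))
          refine Subset.trans ?_ hR0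
          exact Subset.trans (subset_iUnion (fun l => st a b p '' S j l) l)
            (subset_iUnion (fun j => ⋃ l, st a b p '' S j l) j)
        exact film_second hF hχ isOpen_ball hone hφ hM hW' hw1 hw2 (hS j l).measurableSet
          (hS1 j l) (hS2 j l) (hSp j l) (hK j l).isBounded
          (fun Y hY => hsub (mem_image_of_mem _ hY))
    · simp only [if_neg hjl, mul_zero]
      exact second_zero
  have hsum := second_sum Finset.univ (fun j _ => second_sum Finset.univ (fun l _ => hone1 j l))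
  have h1 : area Ω φ = fun t => ∑ j : Fin n, ∑ l : Fin n,
      if j < l then (μH[2] (φ t '' (st a b p '' S j l))).toReal else 0 := by
    funext t
    exact harea φ t
  rw [h1]
  simp only [Finset.mul_sum]
  exact hsum

end Kusner.P.Asm

namespace Kusner.P

open Asm

theorem unstable_of_total {n k : ℕ} (Ω : PIdx → Fin k → Set E3) (a b : PIdx → E3)
    (hF : ∀ i, Frame (a i) (b i) (pole i))
    (ho : ∀ i j, IsOpen (Ω i j)) (hb : ∀ i j, Bornology.IsBounded (Ω i j))
    (hne : ∀ i j, (Ω i j).Nonempty)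
    (hd : ∀ i, Pairwise fun j l => Disjoint (Ω i j) (Ω i l))
    (w0 wt : Fin n → Fin n → ℝ) (wv : Fin n → Fin n → E3) (S : Fin n → Fin n → Set E4)
    (hS : ∀ j l, IsCompact (S j l)) (hS1 : ∀ j l, ∀ Y ∈ S j l, ‖Y‖ = 1)
    (hS2 : ∀ j l, ∀ Y ∈ S j l, w0 j l * Y 0 + inner ℝ (wv j l) (vec Y) = wt j l)
    (hw : ∀ j l, j < l → (S j l).Nonempty →
      w0 j l ^ 2 + ‖wv j l‖ ^ 2 - wt j l ^ 2 = 1 ∧ wv j l ≠ 0)
    (hSp : ∀ i j l, ∀ Y ∈ S j l, inner ℝ (pole i) (vec Y) ≠ 1)
    (harea : ∀ i φ t, area (Ω i) φ t = ∑ j : Fin n, ∑ l : Fin n,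
      if j < l then (μH[2] (φ t '' (st (a i) (b i) (pole i) '' S j l))).toReal else 0)
    (hneg : ∑ j : Fin n, ∑ l : Fin n, (if j < l then
      ∫ Y in S j l, Phi (Y 0) (w0 j l - wt j l * Y 0) ∂μH[2] else 0) < 0) :
    ∃ i φ, IsDeformation φ ∧ PreservesVolumes (Ω i) φ ∧
      ∃ A2 < 0, Second (area (Ω i) φ) A2 := by
  classical
  set I : PIdx → ℝ := fun i => ∑ j : Fin n, ∑ l : Fin n,
    if j < l then ∫ Y in S j l, fi (pole i) (w0 j l) (wt j l) (wv j l) Y ∂μH[2] else 0 with hI
  have hone : ∀ j l, (∑ i : PIdx, pw i *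
      (if j < l then ∫ Y in S j l, fi (pole i) (w0 j l) (wt j l) (wv j l) Y ∂μH[2] else 0)) =
      if j < l then ∫ Y in S j l, Phi (Y 0) (w0 j l - wt j l * Y 0) ∂μH[2] else 0 := by
    intro j l
    by_cases hjl : j < l
    · simp only [if_pos hjl]
      rcases (S j l).eq_empty_or_nonempty with he | hn
      · rw [he]
        simp
      · obtain ⟨hw1, hw2⟩ := hw j l hjl hn
        have hfin : μH[2] (S j l) < ⊤ := film_lt_top hw1 hw2 (hS1 j l) (hS2 j l)
        have hint : ∀ i : PIdx, IntegrableOn (fun Y => pw i * fi (pole i) (w0 j l) (wt j l)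
            (wv j l) Y) (S j l) μH[2] := fun i =>
          integrableOn_of_continuous (hS j l) hfin
            (continuous_const.mul (continuous_fi (pole i) (w0 j l) (wt j l) (wv j l)))
        have h1 : ∀ i : PIdx, pw i * ∫ Y in S j l, fi (pole i) (w0 j l) (wt j l) (wv j l) Y ∂μH[2]
            = ∫ Y in S j l, pw i * fi (pole i) (w0 j l) (wt j l) (wv j l) Y ∂μH[2] := fun i =>
          (integral_const_mul _ _).symm
        simp only [h1]
        rw [← integral_finsetSum Finset.univ (fun i _ => hint i)]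
        refine setIntegral_congr_fun (hS j l).measurableSet fun Y hY => ?_
        exact cubature_film hw1 (hS1 j l Y hY) (hS2 j l Y hY)
    · simp only [if_neg hjl, mul_zero, Finset.sum_const_zero]
  have htot : ∑ i : PIdx, pw i * I i < 0 := by
    have h2 : ∑ i : PIdx, pw i * I i = ∑ j : Fin n, ∑ l : Fin n, (if j < l then
        ∫ Y in S j l, Phi (Y 0) (w0 j l - wt j l * Y 0) ∂μH[2] else 0) := by
      simp only [hI, Finset.mul_sum]
      rw [Finset.sum_comm]
      refine Finset.sum_congr rfl fun j _ => ?_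
      rw [Finset.sum_comm]
      refine Finset.sum_congr rfl fun l _ => ?_
      exact hone j l
    rw [h2]
    exact hneg
  obtain ⟨i, hi⟩ : ∃ i, I i < 0 := by
    by_contra hcon
    push Not at hcon
    have : 0 ≤ ∑ i : PIdx, pw i * I i :=
      Finset.sum_nonneg fun i _ => mul_nonneg (pw_pos i).le (hcon i)
    linarith
  obtain ⟨φ, ε, hε, hφ, hvol, hsec⟩ := second_pole (Ω i) (hF i) (ho i) (hb i) (hne i) (hd i)
    w0 wt wv S hS hS1 hS2 hw (hSp i) (harea i)
  exact ⟨i, φ, hφ, hvol, _, mul_neg_of_pos_of_neg (pow_pos hε 2) hi, hsec⟩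

end Kusner.P
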